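import Pool.Agent.BEF.Stmts

/-!
# Squad BEF, row STZ (helper25): from one degree to the next
-/

set_option autoImplicit false

namespace Pool.Agent.BEF.H25

open Set Filter Topology MeasureTheory
open scoped InnerProductSpace ENNReal NNReal
open Pool.Agent.BE01 Pool.Agent.BEF

noncomputable section

section aux

variable {κ : Type} [Fintype κ] {M : Type} [NormedAddCommGroup M] [NormedSpace ℝ M]
  {M' : Type} [NormedAddCommGroup M'] [NormedSpace ℝ M']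

theorem geMono (gli : GliStmt) {a b : ℕ} (k : ℕ) (h : b = a + 2 * k)
    {P : ℝ → (κ → ℝ) → M} (hP : P ∈ GE κ M b) : P ∈ GE κ M a := by
  subst h
  exact (gli κ M M (ContinuousLinearMap.id ℝ M) a P).2.2.2.1 k hP

theorem geOfHg (gli : GliStmt) {a : ℕ} {P : ℝ → (κ → ℝ) → M} (hP : P ∈ HG κ M a) :
    P ∈ GE κ M a :=
  (gli κ M M (ContinuousLinearMap.id ℝ M) a P).2.2.1 hP

theorem geT (gli : GliStmt) {a : ℕ} (T : M →L[ℝ] M') {P : ℝ → (κ → ℝ) → M}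
    (hP : P ∈ GE κ M a) : (fun ψ z => T (P ψ z)) ∈ GE κ M' a :=
  (gli κ M M' T a P).2.1 hP

theorem geSmul {a : ℕ} (c : ℝ) {P : ℝ → (κ → ℝ) → M} (hP : P ∈ GE κ M a) :
    (fun ψ z => c • P ψ z) ∈ GE κ M a :=
  Submodule.smul_mem _ c hP

theorem geDp (gdv : GdvStmt) {a : ℕ} {P : ℝ → (κ → ℝ) → M} (hP : P ∈ GE κ M a) :
    dp P ∈ GE κ M a := ((gdv κ M a P).2 hP).1

theorem geDv (gdv : GdvStmt) {a e : ℕ} {F : κ → MvPolynomial κ ℝ}
    (hF : ∀ i, F i ∈ GP κ (2 * e + 1)) {P : ℝ → (κ → ℝ) → M} (hP : P ∈ GE κ M a) :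
    dv F P ∈ GE κ M (a + 2 * e) := ((gdv κ M a P).2 hP).2.1 e F hF

theorem geDF (dfl : DflStmt) {a e : ℕ} {F : κ → MvPolynomial κ ℝ} (ω : ℝ)
    (hF : ∀ i, F i ∈ GP κ (2 * e + 1)) {P : ℝ → (κ → ℝ) → M} (hP : P ∈ GE κ M a) :
    DF ω F P ∈ GE κ M a :=
  (dfl κ M M (ContinuousLinearMap.id ℝ M) a a P P ω F F hP hP).2.2.2.2.2.2.2.2 e hF

theorem dpAdd (dfl : DflStmt) {a b : ℕ} {P Q : ℝ → (κ → ℝ) → M} (hP : P ∈ GE κ M a)
    (hQ : Q ∈ GE κ M b) : dp (P + Q) = dp P + dp Q :=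
  (dfl κ M M (ContinuousLinearMap.id ℝ M) a b P Q 0 0 0 hP hQ).1

theorem dvAdd (dfl : DflStmt) {a b : ℕ} (F : κ → MvPolynomial κ ℝ) {P Q : ℝ → (κ → ℝ) → M}
    (hP : P ∈ GE κ M a) (hQ : Q ∈ GE κ M b) : dv F (P + Q) = dv F P + dv F Q :=
  (dfl κ M M (ContinuousLinearMap.id ℝ M) a b P Q 0 F 0 hP hQ).2.1

theorem dFAdd (dfl : DflStmt) {a b : ℕ} (ω : ℝ) (F : κ → MvPolynomial κ ℝ)
    {P Q : ℝ → (κ → ℝ) → M} (hP : P ∈ GE κ M a) (hQ : Q ∈ GE κ M b) :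
    DF ω F (P + Q) = DF ω F P + DF ω F Q :=
  (dfl κ M M (ContinuousLinearMap.id ℝ M) a b P Q ω F 0 hP hQ).2.2.1

theorem dFAdd2 (dfl : DflStmt) {a : ℕ} (ω : ℝ) (F F' : κ → MvPolynomial κ ℝ)
    {P : ℝ → (κ → ℝ) → M} (hP : P ∈ GE κ M a) :
    DF ω (F + F') P = DF ω F P + dv F' P :=
  (dfl κ M M (ContinuousLinearMap.id ℝ M) a a P P ω F F' hP hP).2.2.2.2.1

theorem dpT (dfl : DflStmt) {a : ℕ} (T : M →L[ℝ] M') {P : ℝ → (κ → ℝ) → M}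
    (hP : P ∈ GE κ M a) : dp (fun ψ z => T (P ψ z)) = fun ψ z => T (dp P ψ z) :=
  (dfl κ M M' T a a P P 0 0 0 hP hP).2.2.2.2.2.1

theorem dvT (dfl : DflStmt) {a : ℕ} (F : κ → MvPolynomial κ ℝ) (T : M →L[ℝ] M')
    {P : ℝ → (κ → ℝ) → M} (hP : P ∈ GE κ M a) :
    dv F (fun ψ z => T (P ψ z)) = fun ψ z => T (dv F P ψ z) :=
  (dfl κ M M' T a a P P 0 F 0 hP hP).2.2.2.2.2.2.1

theorem dpSmul (dfl : DflStmt) {a : ℕ} (c : ℝ) {P : ℝ → (κ → ℝ) → M}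
    (hP : P ∈ GE κ M a) : dp (fun ψ z => c • P ψ z) = fun ψ z => c • dp P ψ z :=
  dpT dfl (c • ContinuousLinearMap.id ℝ M) hP

theorem dvSmul (dfl : DflStmt) {a : ℕ} (F : κ → MvPolynomial κ ℝ) (c : ℝ)
    {P : ℝ → (κ → ℝ) → M} (hP : P ∈ GE κ M a) :
    dv F (fun ψ z => c • P ψ z) = fun ψ z => c • dv F P ψ z :=
  dvT dfl F (c • ContinuousLinearMap.id ℝ M) hP

theorem dFEq (ω : ℝ) (F : κ → MvPolynomial κ ℝ) (P : ℝ → (κ → ℝ) → M) :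
    DF ω F P = (fun ψ z => ω • dp P ψ z) + dv F P := rfl

end aux

/-- the eigenvectors -/
theorem spw {X Y H : Type} [NormedCommRing X] [NormedAlgebra ℝ X]
    [NormedAddCommGroup Y] [NormedSpace ℝ Y] [NormedAddCommGroup H] [InnerProductSpace ℝ H]
    {A : Alg X Y H} (W : Wv A) {m : ℕ} {ω : ℝ} {φ : Fin m → H} (h : Evc W ω φ) (ψ : ℝ)
    (z : Fin m ⊕ Fin m → ℝ) : (ω ^ 2) • W.S (pw φ ψ z) = pw φ ψ z := by
  unfold pw
  rw [map_sum, Finset.smul_sum]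
  refine Finset.sum_congr rfl fun i _ => ?_
  rw [map_smul, smul_comm, h.2 i]

theorem stz (gpr : GprStmt) (gli : GliStmt) (gdv : GdvStmt) (dfl : DflStmt) (gpw : GpwStmt)
    (qpw : QpwStmt) (rez : RezStmt) : StzStmt := by
  intro X Y H _ _ _ _ _ _ A W m p e a0 ω φ F P q R1 R2 hp hpe hω hev hslm hR1 hR2 hA
  obtain ⟨F', qd, hF'h, hqd, hqe, hint⟩ := rez H m e W.S ω φ R1 hω hev.1 hslm hR1
  obtain ⟨q', hq', hq⟩ := hA.q_eq
  -- the classes of the vector fields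
  have hF : ∀ i, F i ∈ GP (Fin m ⊕ Fin m) (2 * p + 1) := hA.F_mem
  have hF'e : ∀ i, F' i ∈ GP (Fin m ⊕ Fin m) (2 * e + 1) := fun i => by
    have h0 : F' i ∈ MvPolynomial.homogeneousSubmodule (Fin m ⊕ Fin m) ℝ (2 * e + 1 + 2 * 0) := by
      rw [MvPolynomial.mem_homogeneousSubmodule]
      exact hF'h i
    exact Submodule.mem_iSup_of_mem 0 h0
  have hF'p : ∀ i, F' i ∈ GP (Fin m ⊕ Fin m) (2 * p + 1) := fun i => by
    have h0 : F' i ∈ MvPolynomial.homogeneousSubmodule (Fin m ⊕ Fin m) ℝ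
        (2 * p + 1 + 2 * (e - p)) := by
      rw [MvPolynomial.mem_homogeneousSubmodule,
        show 2 * p + 1 + 2 * (e - p) = 2 * e + 1 by omega]
      exact hF'h i
    exact Submodule.mem_iSup_of_mem (e - p) h0
  have hFp : ∀ i, (F + F') i ∈ GP (Fin m ⊕ Fin m) (2 * p + 1) := fun i =>
    Submodule.add_mem _ (hF i) (hF'p i)
  -- the waves
  obtain ⟨hqw, hpw, hdq, -, hdvq, hdvp, -⟩ := qpw H m φ F'
  have gqw := geOfHg gli hqw
  have gpw' := geOfHg gli hpw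
  have gqd := geOfHg gli hqd
  set T : H →L[ℝ] X := (ω ^ 2) • W.SX with hT
  set P1 : ℝ → (Fin m ⊕ Fin m → ℝ) → X := fun ψ z => T (qw φ ψ z) with hP1
  set Pt : ℝ → (Fin m ⊕ Fin m → ℝ) → X := fun ψ z => W.SX (q' ψ z) with hPt
  set Pd : ℝ → (Fin m ⊕ Fin m → ℝ) → X := fun ψ z => W.SX (qd ψ z) with hPd
  have gP1 : P1 ∈ GE (Fin m ⊕ Fin m) X 1 := geT gli T gqw
  have gPt : Pt ∈ GE (Fin m ⊕ Fin m) X 3 := geT gli W.SX hq'
  have gPd : Pd ∈ GE (Fin m ⊕ Fin m) X (2 * e + 1) := geT gli W.SX gqd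
  have hPs : P = P1 + Pt := by
    funext ψ z
    show P ψ z = T (qw φ ψ z) + W.SX (q' ψ z)
    rw [hA.P_eq, hq, map_add, map_smul]
    rfl
  have gPt1 : Pt ∈ GE (Fin m ⊕ Fin m) X 1 := geMono gli 1 (by norm_num) gPt
  have gP : P ∈ GE (Fin m ⊕ Fin m) X 1 := by
    rw [hPs]
    exact Submodule.add_mem _ gP1 gPt1
  have gDP : DF ω F P ∈ GE (Fin m ⊕ Fin m) X 1 := geDF dfl ω hF gP
  have gDpPd : DF ω (F + F') Pd ∈ GE (Fin m ⊕ Fin m) X (2 * e + 1) := geDF dfl ω hFp gPd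
  -- the three derivatives of `P1`
  have e1 : dp P1 = fun ψ z => T (pw φ ψ z) := by
    rw [hP1, dpT dfl T gqw, hdq]
  have e2 : dv F' (dp P1) = fun ψ z => T (pw φ ψ (vf F' z)) := by
    rw [e1, dvT dfl F' T gpw']
    funext ψ z
    rw [hdvp]
  have e3 : dp (dv F' P1) = fun ψ z => T (pw φ ψ (vf F' z)) := by
    have h1 : dv F' P1 = fun ψ z => P1 ψ (vf F' z) := by
      rw [hP1, dvT dfl F' T gqw]
      funext ψ z
      rw [hdvq]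
    funext ψ z
    rw [h1]
    have h2 := congrFun (congrFun e1 ψ) (vf F' z)
    exact h2
  have eT : ∀ ψ w, A.e (T (pw φ ψ w)) = pw φ ψ w := fun ψ w => by
    rw [hT]
    show A.e ((ω ^ 2) • W.SX (pw φ ψ w)) = _
    rw [map_smul, W.e_SX, spw W hev]
  -- the first derivative
  have gA1 : dv F' P ∈ GE (Fin m ⊕ Fin m) X (2 * e + 1) :=
    geMono gli 0 (by omega) (geDv gdv hF'e gP)
  have d1 : DF ω (F + F') (P + Pd) = DF ω F P + (dv F' P + DF ω (F + F') Pd) := by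
    rw [dFAdd dfl ω (F + F') gP gPd, dFAdd2 dfl ω F F' gP, add_assoc]
  have gB1 : dv F' P + DF ω (F + F') Pd ∈ GE (Fin m ⊕ Fin m) X (2 * e + 1) :=
    Submodule.add_mem _ gA1 gDpPd
  have d2 : DF ω (F + F') (DF ω (F + F') (P + Pd)) = DF ω F (DF ω F P) + dv F' (DF ω F P) +
      (DF ω (F + F') (dv F' P) + DF ω (F + F') (DF ω (F + F') Pd)) := by
    rw [d1, dFAdd dfl ω (F + F') gDP gB1, dFAdd2 dfl ω F F' gDP,
      dFAdd dfl ω (F + F') gA1 gDpPd]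
  -- (i)
  have gdpPt := geDp gdv gPt
  have gdpP1 := geDp gdv gP1
  set T1 : ℝ → (Fin m ⊕ Fin m → ℝ) → X := (fun ψ z => ω • dp Pt ψ z) + dv F P with hT1
  have gT1 : T1 ∈ GE (Fin m ⊕ Fin m) X 3 :=
    Submodule.add_mem _ (geSmul ω gdpPt) (geMono gli (p - 1) (by omega) (geDv gdv hF gP))
  have i1 : DF ω F P = (fun ψ z => ω • dp P1 ψ z) + T1 := by
    rw [dFEq, hT1, ← add_assoc]
    congr 1
    have : dp P = dp P1 + dp Pt := by
      rw [hPs, dpAdd dfl gP1 gPt]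
    rw [this]
    funext ψ z
    show ω • (dp P1 ψ z + dp Pt ψ z) = ω • dp P1 ψ z + ω • dp Pt ψ z
    rw [smul_add]
  have i2 : dv F' (DF ω F P) = (fun ψ z => ω • T (pw φ ψ (vf F' z))) + dv F' T1 := by
    rw [i1, dvAdd dfl F' (geSmul ω gdpP1) gT1, dvSmul dfl F' ω gdpP1, e2]
  have gi : dv F' T1 ∈ GE (Fin m ⊕ Fin m) X (2 * e + 3) :=
    geMono gli 0 (by omega) (geDv gdv hF'e gT1)
  -- (ii)
  have gdvPt : dv F' Pt ∈ GE (Fin m ⊕ Fin m) X (2 * e + 3) :=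
    geMono gli 0 (by omega) (geDv gdv hF'e gPt)
  have ii1 : DF ω (F + F') (dv F' P) = (fun ψ z => ω • T (pw φ ψ (vf F' z))) +
      ((fun ψ z => ω • dp (dv F' Pt) ψ z) + dv (F + F') (dv F' P)) := by
    rw [dFEq, ← add_assoc]
    congr 1
    have h1 : dv F' P = dv F' P1 + dv F' Pt := by
      rw [hPs, dvAdd dfl F' gP1 gPt]
    rw [h1, dpAdd dfl (geDv gdv hF'e gP1) gdvPt, e3]
    funext ψ z
    show ω • (T (pw φ ψ (vf F' z)) + dp (dv F' Pt) ψ z) =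
      ω • T (pw φ ψ (vf F' z)) + ω • dp (dv F' Pt) ψ z
    rw [smul_add]
  have gii : (fun ψ z => ω • dp (dv F' Pt) ψ z) + dv (F + F') (dv F' P) ∈
      GE (Fin m ⊕ Fin m) X (2 * e + 3) :=
    Submodule.add_mem _ (geSmul ω (geDp gdv gdvPt))
      (geMono gli (p - 1) (by omega) (geDv gdv hFp gA1))
  -- (iii)
  have gdpPd := geDp gdv gPd
  have gdvPd : dv (F + F') Pd ∈ GE (Fin m ⊕ Fin m) X (2 * e + 3) :=
    geMono gli (p - 1) (by omega) (geDv gdv hFp gPd)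
  have iii1 : DF ω (F + F') (DF ω (F + F') Pd) = (fun ψ z => (ω ^ 2) • dp (dp Pd) ψ z) +
      ((fun ψ z => ω • dp (dv (F + F') Pd) ψ z) + dv (F + F') (DF ω (F + F') Pd)) := by
    rw [dFEq ω (F + F') (DF ω (F + F') Pd), ← add_assoc]
    congr 1
    have h1 : dp (DF ω (F + F') Pd) = (fun ψ z => ω • dp (dp Pd) ψ z) +
        dp (dv (F + F') Pd) := by
      rw [dFEq, dpAdd dfl (geSmul ω gdpPd) gdvPd, dpSmul dfl ω gdpPd]
    rw [h1]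
    funext ψ z
    show ω • (ω • dp (dp Pd) ψ z + dp (dv (F + F') Pd) ψ z) =
      (ω ^ 2) • dp (dp Pd) ψ z + ω • dp (dv (F + F') Pd) ψ z
    rw [smul_add, smul_smul, ← pow_two]
  have giii : (fun ψ z => ω • dp (dv (F + F') Pd) ψ z) + dv (F + F') (DF ω (F + F') Pd) ∈
      GE (Fin m ⊕ Fin m) X (2 * e + 3) :=
    Submodule.add_mem _ (geSmul ω (geDp gdv gdvPd))
      (geMono gli (p - 1) (by omega) (geDv gdv hFp gDpPd))
  have e4 : dp (dp Pd) = fun ψ z => W.SX (dp (dp qd) ψ z) := by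
    rw [hPd, dpT dfl W.SX gqd, dpT dfl W.SX (geDp gdv gqd)]
  -- the rest
  set Rs : ℝ → (Fin m ⊕ Fin m → ℝ) → X := dv F' T1 +
    (((fun ψ z => ω • dp (dv F' Pt) ψ z) + dv (F + F') (dv F' P)) +
    ((fun ψ z => ω • dp (dv (F + F') Pd) ψ z) + dv (F + F') (DF ω (F + F') Pd))) with hRs
  have gRs : Rs ∈ GE (Fin m ⊕ Fin m) X (2 * e + 3) :=
    Submodule.add_mem _ gi (Submodule.add_mem _ gii giii)
  have d3 : ∀ ψ z, A.e (DF ω (F + F') (DF ω (F + F') (P + Pd)) ψ z) =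
      A.e (DF ω F (DF ω F P) ψ z) + (2 * ω) • pw φ ψ (vf F' z) +
      (ω ^ 2) • W.S (dp (dp qd) ψ z) + A.e (Rs ψ z) := by
    intro ψ z
    rw [d2, i2, ii1, iii1, e4]
    show A.e (DF ω F (DF ω F P) ψ z + (ω • T (pw φ ψ (vf F' z)) + dv F' T1 ψ z) +
      ((ω • T (pw φ ψ (vf F' z)) + ((fun ψ z => ω • dp (dv F' Pt) ψ z) +
        dv (F + F') (dv F' P)) ψ z) +
      ((ω ^ 2) • W.SX (dp (dp qd) ψ z) + ((fun ψ z => ω • dp (dv (F + F') Pd) ψ z) +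
        dv (F + F') (DF ω (F + F') Pd)) ψ z))) = _
    have hRz : Rs ψ z = dv F' T1 ψ z + (((fun ψ z => ω • dp (dv F' Pt) ψ z) +
        dv (F + F') (dv F' P)) ψ z + ((fun ψ z => ω • dp (dv (F + F') Pd) ψ z) +
        dv (F + F') (DF ω (F + F') Pd)) ψ z) := rfl
    rw [hRz]
    simp only [map_add, map_smul, eT, W.e_SX]
    module
  -- the nonlinear term
  have gPp : P + Pd ∈ GE (Fin m ⊕ Fin m) X 1 :=
    Submodule.add_mem _ gP (geMono gli e (by omega) gPd)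
  have gDPp : DF ω (F + F') (P + Pd) ∈ GE (Fin m ⊕ Fin m) X 1 := geDF dfl ω hFp gPp
  have hdiff : DF ω (F + F') (P + Pd) - DF ω F P ∈ GE (Fin m ⊕ Fin m) X (2 * e + 1) := by
    rw [d1, add_sub_cancel_left]
    exact gB1
  have gN := (gpw (Fin m ⊕ Fin m) X (2 * e + 1) (2 * p) (DF ω (F + F') (P + Pd))
    (DF ω F P)).2.2 gDPp gDP hdiff
  have gN' : (fun ψ z => DF ω (F + F') (P + Pd) ψ z ^ (2 * p + 1) -
      DF ω F P ψ z ^ (2 * p + 1)) ∈ GE (Fin m ⊕ Fin m) X (2 * e + 3) :=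
    geMono gli (p - 1) (by omega) gN
  refine ⟨F', P + Pd, q + qd, R2 + ((fun ψ z => A.e (Rs ψ z)) +
    fun ψ z => a0 • A.e (DF ω (F + F') (P + Pd) ψ z ^ (2 * p + 1) -
      DF ω F P ψ z ^ (2 * p + 1))), hF'h, ?_, hint⟩
  refine ⟨hFp, ?_, ?_, ?_, ?_⟩
  · intro ψ z
    show P ψ z + W.SX (qd ψ z) = W.SX (q ψ z + qd ψ z)
    rw [map_add, hA.P_eq]
  · refine ⟨q' + qd, Submodule.add_mem _ hq' (geMono gli (e - 1) (by omega) gqd), ?_⟩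
    intro ψ z
    show q ψ z + qd ψ z = (ω ^ 2) • qw φ ψ z + (q' ψ z + qd ψ z)
    rw [hq, add_assoc]
  · exact Submodule.add_mem _ hR2 (Submodule.add_mem _ (geT gli A.e gRs)
      (geSmul a0 (geT gli A.e gN')))
  · intro ψ z
    have h1 := hA.res ψ z
    have h2 := hqe ψ z
    rw [d3]
    show _ + (q ψ z + qd ψ z) + _ = R2 ψ z + (A.e (Rs ψ z) +
      a0 • A.e (DF ω (F + F') (P + Pd) ψ z ^ (2 * p + 1) - DF ω F P ψ z ^ (2 * p + 1)))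
    have h1' : A.e (DF ω F (DF ω F P) ψ z) + q ψ z + a0 • A.e (DF ω F P ψ z ^ (2 * p + 1)) =
      R1 ψ z + R2 ψ z := h1
    have h3 : A.e (DF ω F (DF ω F P) ψ z) = R1 ψ z + R2 ψ z - q ψ z -
        a0 • A.e (DF ω F P ψ z ^ (2 * p + 1)) := by
      rw [← h1']
      abel
    have h4 : R1 ψ z = - ((2 * ω) • pw φ ψ (vf F' z) + (ω ^ 2) • W.S (dp (dp qd) ψ z) +
        qd ψ z) := by
      rw [h2, neg_neg]
    rw [h3, h4, map_sub, smul_sub]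
    abel

end

end Pool.Agent.BEF.H25
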